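import Pool.Agent.Helper96.Cmd
import Pool.Agent.Helper96.Defs

/-!
# Grid automata simulating programs (module G1 for MP_9e35a6_lc)
-/

set_option autoImplicit false

namespace Pool.Agent.Helper96

/-- all stack indices occurring in the program are `< n` and all symbols are `< g` -/
def Cmd.ok (n g : ℕ) : Cmd → Prop
  | Cmd.push k a => k < n ∧ a < g
  | Cmd.pop k => k < n
  | Cmd.seq p q => p.ok n g ∧ q.ok n g
  | Cmd.ite k a p q => k < n ∧ a < g ∧ p.ok n g ∧ q.ok n g
  | Cmd.wh k a p => k < n ∧ a < g ∧ p.ok n g

end Pool.Agent.Helper96

namespace Pool.Agent.Helper94.Grid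

open Pool.Agent.Helper96

/-- next control, given the heads of the stacks -/
def nextK (h : ℕ → Option ℕ) : List Cmd → List Cmd
  | [] => []
  | Cmd.push _ _ :: K => K
  | Cmd.pop _ :: K => K
  | Cmd.seq p q :: K => p :: q :: K
  | Cmd.ite k a p q :: K => if h k = some a then p :: K else q :: K
  | Cmd.wh k a p :: K => if h k = some a then K else p :: Cmd.wh k a p :: K

/-- continuations reachable while running `c` with continuation `K` -/
def supp : Cmd → List Cmd → Finset (List Cmd)
  | Cmd.push k a, K => {Cmd.push k a :: K}
  | Cmd.pop k, K => {Cmd.pop k :: K}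
  | Cmd.seq p q, K => insert (Cmd.seq p q :: K) (supp p (q :: K) ∪ supp q K)
  | Cmd.ite k a p q, K => insert (Cmd.ite k a p q :: K) (supp p K ∪ supp q K)
  | Cmd.wh k a p, K => insert (Cmd.wh k a p :: K) (supp p (Cmd.wh k a p :: K))

theorem self_mem_supp (c : Cmd) (K : List Cmd) : c :: K ∈ supp c K := by
  cases c <;> simp [supp]

theorem nextK_mem_supp (h : ℕ → Option ℕ) (c : Cmd) :
    ∀ (K L : List Cmd), L ∈ supp c K → nextK h L ∈ supp c K ∨ nextK h L = K := by
  induction c with
  | push k a =>
    intro K L hL
    simp only [supp, Finset.mem_singleton] at hL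
    subst hL
    right; rfl
  | pop k =>
    intro K L hL
    simp only [supp, Finset.mem_singleton] at hL
    subst hL
    right; rfl
  | seq p q ihp ihq =>
    intro K L hL
    simp only [supp, Finset.mem_insert, Finset.mem_union] at hL ⊢
    rcases hL with rfl | hL | hL
    · left; right; left
      exact self_mem_supp _ _
    · rcases ihp _ _ hL with h1 | h1
      · left; right; left; exact h1
      · left; right; right; rw [h1]; exact self_mem_supp _ _
    · rcases ihq _ _ hL with h1 | h1
      · left; right; right; exact h1
      · right; exact h1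
  | ite k a p q ihp ihq =>
    intro K L hL
    simp only [supp, Finset.mem_insert, Finset.mem_union] at hL ⊢
    rcases hL with rfl | hL | hL
    · simp only [nextK]
      split_ifs
      · left; right; left; exact self_mem_supp _ _
      · left; right; right; exact self_mem_supp _ _
    · rcases ihp _ _ hL with h1 | h1
      · left; right; left; exact h1
      · right; exact h1
    · rcases ihq _ _ hL with h1 | h1
      · left; right; right; exact h1
      · right; exact h1
  | wh k a p ihp =>
    intro K L hL
    simp only [supp, Finset.mem_insert] at hL ⊢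
    rcases hL with rfl | hL
    · simp only [nextK]
      split_ifs
      · right; rfl
      · left; right; exact self_mem_supp _ _
    · rcases ihp _ _ hL with h1 | h1
      · left; right; exact h1
      · left; left; exact h1

theorem ok_of_mem_supp {n g : ℕ} (c : Cmd) :
    ∀ (K L : List Cmd), c.ok n g → (∀ x ∈ K, x.ok n g) → L ∈ supp c K → ∀ x ∈ L, x.ok n g := by
  induction c with
  | push k a =>
    intro K L hc hK hL
    simp only [supp, Finset.mem_singleton] at hL
    subst hL
    simpa using ⟨hc, hK⟩
  | pop k =>
    intro K L hc hK hL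
    simp only [supp, Finset.mem_singleton] at hL
    subst hL
    simpa using ⟨hc, hK⟩
  | seq p q ihp ihq =>
    intro K L hc hK hL
    simp only [supp, Finset.mem_insert, Finset.mem_union] at hL
    rcases hL with rfl | hL | hL
    · simpa using ⟨hc, hK⟩
    · exact ihp _ _ hc.1 (by simpa using ⟨hc.2, hK⟩) hL
    · exact ihq _ _ hc.2 hK hL
  | ite k a p q ihp ihq =>
    intro K L hc hK hL
    simp only [supp, Finset.mem_insert, Finset.mem_union] at hL
    rcases hL with rfl | hL | hL
    · simpa using ⟨hc, hK⟩
    · exact ihp _ _ hc.2.2.1 hK hL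
    · exact ihq _ _ hc.2.2.2 hK hL
  | wh k a p ihp =>
    intro K L hc hK hL
    simp only [supp, Finset.mem_insert] at hL
    rcases hL with rfl | hL
    · simpa using ⟨hc, hK⟩
    · exact ihp _ _ hc.2.2 (by simpa using ⟨hc, hK⟩) hL

/-- the symbol pushed by the current instruction -/
def sym : List Cmd → Option ℕ
  | Cmd.push _ a :: _ => some a
  | _ => none

/-- new content of a cell from the contents above, at, and below -/
def upd {n : ℕ} (K : List Cmd) (ab cur be : Fin n → Option ℕ) : Fin n → Option ℕ :=
  match K with
  | Cmd.push k _ :: _ => fun j => if (j : ℕ) = k then ab j else cur j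
  | Cmd.pop k :: _ => fun j => if (j : ℕ) = k then be j else cur j
  | _ => cur

/-- cell states -/
abbrev St (n : ℕ) := List Cmd × (Fin n → Option ℕ)

/-- extension by `none` -/
def ext {n : ℕ} (x : Fin n → Option ℕ) : ℕ → Option ℕ :=
  fun k => if h : k < n then x ⟨k, h⟩ else none

/-- transition of the leftmost cell -/
def D0 {n : ℕ} (b c : St n) : St n := (nextK (ext b.2) b.1, upd b.1 (fun _ => sym b.1) b.2 c.2)

/-- transition of the other cells -/
def D1 {n : ℕ} (a b c e : St n) : St n := (e.1, upd b.1 a.2 b.2 c.2)

/-- the cell state of a configuration at depth `i` -/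
def cellOf (n : ℕ) (x : List Cmd × Stk) (i : ℕ) : St n := (x.1, fun k => (x.2 k)[i]?)

theorem step_D0 {n g : ℕ} (x : List Cmd × Stk) (hx : ∀ c ∈ x.1, c.ok n g) :
    cellOf n (step x) 0 = D0 (cellOf n x 0) (cellOf n x 1) := by
  obtain ⟨K, s⟩ := x
  cases K with
  | nil => simp [step, cellOf, D0, nextK, upd]
  | cons c K =>
    have hc : c.ok n g := hx c (by simp)
    cases c with
    | push k a =>
      simp only [step, cellOf, D0, nextK, upd, sym, Prod.mk.injEq, true_and]
      funext j
      by_cases h : (j : ℕ) = k
      · simp [h]
      · simp [h]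
    | pop k =>
      simp only [step, cellOf, D0, nextK, upd, Prod.mk.injEq, true_and]
      funext j
      by_cases h : (j : ℕ) = k
      · simp [h]
      · simp [h]
    | seq p q => simp [step, cellOf, D0, nextK, upd]
    | ite k a p q =>
      have hk : k < n := hc.1
      simp only [step, cellOf, D0, nextK, upd, ext, hk, dite_true]
      have : (s k).head? = (s k)[0]? := List.head?_eq_getElem?
      rw [this]
      split_ifs <;> rfl
    | wh k a p =>
      have hk : k < n := hc.1
      simp only [step, cellOf, D0, nextK, upd, ext, hk, dite_true]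
      have : (s k).head? = (s k)[0]? := List.head?_eq_getElem?
      rw [this]
      split_ifs <;> rfl

theorem step_D1 {n : ℕ} (x : List Cmd × Stk) (i : ℕ) :
    cellOf n (step x) (i + 1) =
      D1 (cellOf n x i) (cellOf n x (i + 1)) (cellOf n x (i + 2)) (cellOf n (step x) i) := by
  obtain ⟨K, s⟩ := x
  cases K with
  | nil => simp [step, cellOf, D1, upd]
  | cons c K =>
    cases c with
    | push k a =>
      simp only [step, cellOf, D1, upd, Prod.mk.injEq, true_and]
      funext j
      by_cases h : (j : ℕ) = k
      · simp [h]
      · simp [h]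
    | pop k =>
      simp only [step, cellOf, D1, upd, Prod.mk.injEq, true_and]
      funext j
      by_cases h : (j : ℕ) = k
      · simp [h]
      · simp [h]
    | seq p q => simp [step, cellOf, D1, upd]
    | ite k a p q =>
      simp only [step, cellOf, D1, upd]
      split_ifs <;> rfl
    | wh k a p =>
      simp only [step, cellOf, D1, upd]
      split_ifs <;> rfl

/-- the finite set of contents -/
def conts (n g : ℕ) : Finset (Fin n → Option ℕ) :=
  Fintype.piFinset fun _ => insert none ((Finset.range g).image some)

theorem mem_conts {n g : ℕ} {x : Fin n → Option ℕ} :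
    x ∈ conts n g ↔ ∀ k, ∀ a ∈ x k, a < g := by
  simp only [conts, Fintype.mem_piFinset, Finset.mem_insert, Finset.mem_image, Finset.mem_range]
  refine forall_congr' fun k => ?_
  cases h : x k with
  | none => simp
  | some b => simp

/-- the finite set of cell states -/
def states (c : Cmd) (n g : ℕ) : Finset (St n) := insert [] (supp c []) ×ˢ conts n g

theorem nextK_mem (c : Cmd) (h : ℕ → Option ℕ) {K : List Cmd} (hK : K ∈ insert [] (supp c [])) :
    nextK h K ∈ insert [] (supp c []) := by
  rcases Finset.mem_insert.1 hK with rfl | hK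
  · simp [nextK]
  · rcases nextK_mem_supp h c [] K hK with h1 | h1
    · exact Finset.mem_insert_of_mem h1
    · rw [h1]; simp

theorem ok_of_mem {c : Cmd} {n g : ℕ} (hc : c.ok n g) {K : List Cmd}
    (hK : K ∈ insert [] (supp c [])) : ∀ x ∈ K, x.ok n g := by
  rcases Finset.mem_insert.1 hK with rfl | hK
  · simp
  · exact ok_of_mem_supp c [] K hc (by simp) hK

theorem sym_lt {c : Cmd} {n g : ℕ} (hc : c.ok n g) {K : List Cmd}
    (hK : K ∈ insert [] (supp c [])) : ∀ a ∈ sym K, a < g := by
  have h := ok_of_mem hc hK
  intro a ha
  unfold sym at ha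
  split at ha
  · rename_i k b K'
    simp only [Option.mem_def, Option.some.injEq] at ha
    subst ha
    have h1 : (Cmd.push k b).ok n g := h _ (by simp)
    exact h1.2
  · simp at ha

theorem upd_mem {n g : ℕ} (K : List Cmd) {ab cur be : Fin n → Option ℕ}
    (h1 : ab ∈ conts n g) (h2 : cur ∈ conts n g) (h3 : be ∈ conts n g) :
    upd K ab cur be ∈ conts n g := by
  rw [mem_conts] at *
  intro k
  unfold upd
  split
  · split_ifs
    · exact h1 k
    · exact h2 k
  · split_ifs
    · exact h3 k
    · exact h2 k
  · exact h2 k

theorem D0_mem {c : Cmd} {n g : ℕ} (hc : c.ok n g) {x y : St n} (hx : x ∈ states c n g)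
    (hy : y ∈ states c n g) : D0 x y ∈ states c n g := by
  simp only [states, Finset.mem_product] at *
  refine ⟨nextK_mem c _ hx.1, upd_mem _ ?_ hx.2 hy.2⟩
  rw [mem_conts]
  exact fun _ => sym_lt hc hx.1

theorem D1_mem {c : Cmd} {n g : ℕ} {x y z e : St n} (hx : x ∈ states c n g)
    (hy : y ∈ states c n g) (hz : z ∈ states c n g) (he : e ∈ states c n g) :
    D1 x y z e ∈ states c n g := by
  simp only [states, Finset.mem_product] at *
  exact ⟨he.1, upd_mem _ hx.2 hy.2 hz.2⟩

section numbering

variable {α : Type} (S : Finset α) [Inhabited α]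

open Classical in
/-- number of an element -/
noncomputable def encS (x : α) : ℕ := if h : x ∈ S then (S.equivFin ⟨x, h⟩ : ℕ) else 0

open Classical in
/-- element with given number -/
noncomputable def decS (z : ℕ) : α := if h : z < S.card then (S.equivFin.symm ⟨z, h⟩ : α) else default

theorem decS_encS {x : α} (h : x ∈ S) : decS S (encS S x) = x := by
  unfold decS encS
  rw [dif_pos h, dif_pos (Fin.is_lt _)]
  simp

omit [Inhabited α] in
theorem encS_lt {x : α} (h : x ∈ S) : encS S x < S.card := by
  unfold encS
  rw [dif_pos h]
  exact Fin.is_lt _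

theorem decS_mem {z : ℕ} (h : z < S.card) : decS S z ∈ S := by
  unfold decS
  rw [dif_pos h]
  exact Subtype.prop _

end numbering

/-- the grid automaton -/
noncomputable def grid (c : Cmd) (n g : ℕ) : GA where
  m := (states c n g).card
  d0 b e := encS (states c n g) (D0 (decS (states c n g) b) (decS (states c n g) e))
  d a b e f := encS (states c n g) (D1 (decS (states c n g) a) (decS (states c n g) b)
    (decS (states c n g) e) (decS (states c n g) f))

theorem grid_closed {c : Cmd} {n g : ℕ} (hc : c.ok n g) : (grid c n g).Closed := by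
  refine ⟨fun b hb e he => ?_, fun a ha b hb e he f hf => ?_⟩
  · exact encS_lt _ (D0_mem hc (decS_mem _ hb) (decS_mem _ he))
  · exact encS_lt _ (D1_mem (decS_mem _ ha) (decS_mem _ hb) (decS_mem _ he) (decS_mem _ hf))

/-- validity of configurations -/
def Good (c : Cmd) (g : ℕ) (x : List Cmd × Stk) : Prop :=
  x.1 ∈ insert [] (supp c []) ∧ ∀ k, ∀ a ∈ x.2 k, a < g

theorem Good.cellOf {c : Cmd} {n g : ℕ} {x : List Cmd × Stk} (hx : Good c g x) (i : ℕ) :
    cellOf n x i ∈ states c n g := by
  simp only [states, Finset.mem_product, Grid.cellOf]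
  refine ⟨hx.1, ?_⟩
  rw [mem_conts]
  intro k a ha
  exact hx.2 k a (List.mem_of_getElem? ha)

theorem step_fst {n g : ℕ} (x : List Cmd × Stk) (hx : ∀ c ∈ x.1, c.ok n g) :
    (step x).1 = nextK (ext (cellOf n x 0).2) x.1 :=
  congrArg Prod.fst (step_D0 x hx)

theorem Good.step {c : Cmd} {n g : ℕ} (hc : c.ok n g) {x : List Cmd × Stk} (hx : Good c g x) :
    Good c g (step x) := by
  have hok := ok_of_mem hc hx.1
  refine ⟨?_, ?_⟩
  · rw [step_fst x hok]
    exact nextK_mem c _ hx.1
  · obtain ⟨K, s⟩ := x
    cases K with
    | nil => exact hx.2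
    | cons e K =>
      have he : e.ok n g := hok e (by simp)
      cases e with
      | push k a =>
        intro j b hb
        simp only [Helper96.step] at hb
        by_cases h : j = k
        · subst h
          rw [Function.update_self] at hb
          rcases List.mem_cons.1 hb with rfl | hb
          · exact he.2
          · exact hx.2 _ _ hb
        · rw [Function.update_of_ne h] at hb
          exact hx.2 _ _ hb
      | pop k =>
        intro j b hb
        simp only [Helper96.step] at hb
        by_cases h : j = k
        · subst h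
          rw [Function.update_self] at hb
          exact hx.2 _ _ (List.mem_of_mem_tail hb)
        · rw [Function.update_of_ne h] at hb
          exact hx.2 _ _ hb
      | seq p q => exact hx.2
      | ite k a p q =>
        simp only [Helper96.step]
        split_ifs <;> exact hx.2
      | wh k a p =>
        simp only [Helper96.step]
        split_ifs <;> exact hx.2

theorem grid_next {c : Cmd} {n g : ℕ} (hc : c.ok n g) {x : List Cmd × Stk} (hx : Good c g x) :
    ∀ i, (grid c n g).next (fun i => encS (states c n g) (cellOf n x i)) i =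
      encS (states c n g) (cellOf n (step x) i) := by
  intro i
  induction i with
  | zero =>
    simp only [GA.next, grid]
    rw [decS_encS _ (hx.cellOf _), decS_encS _ (hx.cellOf _), step_D0 x (ok_of_mem hc hx.1)]
  | succ i ih =>
    simp only [GA.next]
    rw [ih]
    simp only [grid]
    rw [decS_encS _ (hx.cellOf _), decS_encS _ (hx.cellOf _), decS_encS _ (hx.cellOf _),
      decS_encS _ ((hx.step hc).cellOf _), step_D1 x i]

theorem grid_cell {c : Cmd} {n g : ℕ} (hc : c.ok n g) {x : List Cmd × Stk} (hx : Good c g x)
    (t : ℕ) :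
    (grid c n g).cell (fun i => encS (states c n g) (cellOf n x i)) t =
      fun i => encS (states c n g) (cellOf n (step^[t] x) i) := by
  unfold GA.cell
  induction t generalizing x with
  | zero => rfl
  | succ t ih =>
    rw [Function.iterate_succ_apply, Function.iterate_succ_apply]
    have h : (grid c n g).next (fun i => encS (states c n g) (cellOf n x i)) =
        fun i => encS (states c n g) (cellOf n (step x) i) := funext (grid_next hc hx)
    rw [h]
    exact ih (hx.step hc)

end Pool.Agent.Helper94.Grid

namespace Pool.Agent.Helper96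

open Pool.Agent.Helper94.Grid

/-- Every program is simulated by a grid automaton. -/
theorem exists_GA (c : Cmd) (n g : ℕ) (hc : c.ok n g) :
    ∃ (G : GA) (ini : (Fin n → Option ℕ) → ℕ) (halt : ℕ → Bool) (hd : ℕ → Fin n → Option ℕ),
      G.Closed ∧ (∀ x, (∀ k, ∀ a ∈ x k, a < g) → ini x < G.m) ∧
      ∀ s0 : Stk, (∀ k, ∀ a ∈ s0 k, a < g) →
        ∀ t, let cfg := step^[t] ([c], s0)
          let z := G.cell (fun i => ini (fun k => (s0 k)[i]?)) t 0
          (halt z = true ↔ cfg.1 = []) ∧ ∀ k : Fin n, hd z k = (cfg.2 k).head? := by
  classical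
  refine ⟨grid c n g, fun x => encS (states c n g) ([c], x),
    fun z => decide ((decS (states c n g) z).1 = []), fun z => (decS (states c n g) z).2,
    grid_closed hc, ?_, ?_⟩
  · intro x hx
    refine encS_lt _ ?_
    simp only [states, Finset.mem_product]
    exact ⟨Finset.mem_insert_of_mem (self_mem_supp c []), mem_conts.2 hx⟩
  · intro s0 hs0 t
    have hgood : Good c g ([c], s0) := ⟨Finset.mem_insert_of_mem (self_mem_supp c []), hs0⟩
    have hgood' : ∀ t, Good c g (step^[t] ([c], s0)) := by
      intro t
      induction t with
      | zero => exact hgood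
      | succ t ih => rw [Function.iterate_succ_apply']; exact ih.step hc
    have h1 := congrFun (grid_cell hc hgood t) 0
    have h2 : (fun i => encS (states c n g) ([c], fun k : Fin n => (s0 k)[i]?)) =
        fun i => encS (states c n g) (cellOf n ([c], s0) i) := rfl
    dsimp only
    rw [h2, h1, decS_encS _ ((hgood' t).cellOf _)]
    refine ⟨by simp [cellOf], fun k => ?_⟩
    simp [cellOf, List.head?_eq_getElem?]

end Pool.Agent.Helper96
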